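import Pool.Agent.Helper345_HeatBath.Final

/-!
Monotonicity in the inverse temperature of the law of a configuration produced by sequential
heat-bath updates on a discrete torus.
-/

namespace Pool.Agent.Results.MP_b3cacc_pr.HeatBathMonotone

open Pool.Agent.Helper345_HeatBath

/-- Start from the all plus configuration on a discrete torus and perform heat-bath updates at
distinct sites, one after the other. Then at every stage the expectation of every nondecreasing
function, such as the spin at a site, is at least as large at the inverse temperature `β₁` as at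
`β₂ < β₁`, if the torus has dimension at most two; or if it has dimension three and
`cosh (4 * β₁) ≤ 2`; or in dimension `d`, if `β₁ ^ 2 * (2 * d) ^ 3 ≤ 6`; or if each updated
site which has a neighbour updated later has at most half plus one of its neighbours updated
before. -/
theorem result {d : ℕ} (L : Fin d → ℕ) [∀ j, NeZero (L j)]
    (xs : List ((j : Fin d) → ZMod (L j))) (hxs : xs.Nodup)
    (β₁ β₂ : ℝ) (hβ₂ : 0 < β₂) (hβ : β₂ < β₁)
    (h : d ≤ 2 ∨ (d = 3 ∧ Real.cosh (4 * β₁) ≤ 2) ∨ β₁ ^ 2 * (2 * (d : ℝ)) ^ 3 ≤ 6 ∨
      ∀ ys c zs, xs = ys ++ c :: zs →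
        (∀ z ∈ zs, ¬ (torus L).Adj c z) ∨
        2 * (ys.countP fun y => decide ((torus L).Adj c y)) ≤ (torus L).degree c + 2)
    (F : (((j : Fin d) → ZMod (L j)) → Bool) → ℝ) (hF : Monotone F) (j : ℕ) :
    expect (torus L) (pPlus β₂) F (xs.take j) (fun _ => true) ≤
      expect (torus L) (pPlus β₁) F (xs.take j) (fun _ => true) := by
  refine expect_le2 (torus L) hF xs hxs hβ₂.le hβ.le ?_ j
  intro ys c zs hx
  have hdeg := torus_degree_le L c
  rcases h with h | h | h | h
  · by_cases hz : ∀ z ∈ zs, ¬ (torus L).Adj c z
    · left; exact hz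
    right; left
    have h1 := nf_add_le (torus L) (ys := ys) (zs := zs) (c := c) (hx ▸ hxs)
    have h2 : nf (torus L) zs c ≠ 0 := by
      intro h0
      apply hz
      rw [nf, List.countP_eq_zero] at h0
      simpa using h0
    omega
  · right; right; left
    exact ⟨hdeg.trans (by omega), h.2⟩
  · right; right; right
    refine le_trans ?_ h
    have h1 : ((torus L).degree c : ℝ) ≤ 2 * (d : ℝ) := by exact_mod_cast hdeg
    gcongr
  · rcases h ys c zs hx with h | h
    · left; exact h
    · right; left; exact h

end Pool.Agent.Results.MP_b3cacc_pr.HeatBathMonotone
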